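import Pool.Agent.X247.RDom.Split

/-!
# The fpt algorithm for `r`-Dominating Set, `r ≥ 3`
-/

namespace Pool.Agent.NPC.X247.RDom

open Pool.Agent.H633R2 Pool.Agent.X247.RDom

/-! ### Boolean functions -/

/-- isolated vertices -/
def isoB (M : List (List Bool)) (v : ℕ) : Bool := (List.range M.length).all fun w => !edg M v w

theorem isoB_iff (M : List (List Bool)) (v : Fin M.length) :
    isoB M v = true ↔ Iso (graphOf M) v := by
  simp only [isoB, Iso, List.all_eq_true, List.mem_range, Bool.not_eq_true', ← Bool.not_eq_true,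
    ← edg_iff]
  exact ⟨fun h w => h w w.2, fun h w hw => h ⟨w, hw⟩⟩

/-- equality of balls -/
def sameB (M : List (List Bool)) (r u v : ℕ) : Bool :=
  (List.range M.length).all fun w => decide (inBall M r u w = inBall M r v w)

theorem sameB_iff (M : List (List Bool)) (r : ℕ) (u v : Fin M.length) :
    sameB M r u v = true ↔ ∀ w, near (graphOf M) r u w ↔ near (graphOf M) r v w := by
  simp only [sameB, List.all_eq_true, List.mem_range, decide_eq_true_eq, ← inBall_iff,
    ← Bool.eq_iff_iff]
  exact ⟨fun h w => h w w.2, fun h w hw => h ⟨w, hw⟩⟩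

/-- `u` is an earlier vertex with the same ball -/
def earlier (M : List (List Bool)) (r v u : ℕ) : Bool :=
  decide (u < v) && (!isoB M u && sameB M r u v)

/-- representatives of the balls of the vertices which are not isolated -/
def repB (M : List (List Bool)) (r v : ℕ) : Bool :=
  !isoB M v && (List.range M.length).all fun u => !earlier M r v u

/-- the list of the representatives -/
def reps (M : List (List Bool)) (r : ℕ) : List ℕ := (List.range M.length).filter (repB M r)

/-- the number of isolated vertices -/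
def isoCount (M : List (List Bool)) : ℕ := ((List.range M.length).filter (isoB M)).length

/-- the set of representatives coded by a number -/
def pick (M : List (List Bool)) (r m : ℕ) : List ℕ :=
  ((reps M r).zipIdx.filter fun p => m.testBit p.2).map Prod.fst

/-- the test of a set of vertices -/
def checkB (M : List (List Bool)) (r l : ℕ) (S : List ℕ) : Bool :=
  decide (S.length + isoCount M ≤ l) && (List.range M.length).all fun v =>
    isoB M v || S.any fun s => inBall M r v s

/-! ### Correctness -/

open Classical in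
/-- the isolated vertices -/
noncomputable def isoF {n : ℕ} (G : SimpleGraph (Fin n)) : Finset (Fin n) :=
  Finset.univ.filter (Iso G)

theorem isoCount_eq (M : List (List Bool)) : isoCount M = (isoF (graphOf M)).card := by
  classical
  unfold isoCount isoF
  rw [length_filter_range]
  congr 1
  ext v
  simp only [Finset.mem_filter, Finset.mem_univ, true_and, isoB_iff]

/-- the isolated vertices may be removed -/
theorem dom_iff {n : ℕ} (G : SimpleGraph (Fin n)) (r l : ℕ) :
    (∃ S : Finset (Fin n), S.card ≤ l ∧ IsRDom G r S) ↔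
      ∃ S : Finset (Fin n), (∀ s ∈ S, ¬ Iso G s) ∧ S.card + (isoF G).card ≤ l ∧
        ∀ v, ¬ Iso G v → ∃ s ∈ S, near G r v s := by
  classical
  constructor
  · rintro ⟨S, hS, hd⟩
    have hiso : isoF G ⊆ S := by
      intro v hv
      have hv' : Iso G v := (Finset.mem_filter.1 hv).2
      obtain ⟨s, hs, h⟩ := hd v
      rw [← near_iff] at h
      rw [near_iso hv' h]
      exact hs
    refine ⟨S \ isoF G, ?_, ?_, ?_⟩
    · intro s hs h
      rw [Finset.mem_sdiff] at hs
      exact hs.2 (Finset.mem_filter.2 ⟨Finset.mem_univ _, h⟩)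
    · rw [Finset.card_sdiff_add_card_eq_card hiso]; exact hS
    · intro v hv
      obtain ⟨s, hs, h⟩ := hd v
      rw [← near_iff] at h
      refine ⟨s, Finset.mem_sdiff.2 ⟨hs, fun h2 => hv ?_⟩, h⟩
      have h3 : Iso G s := (Finset.mem_filter.1 h2).2
      rw [← near_iso h3 (near_symm h)]
      exact h3
  · rintro ⟨S, hS, hc, hd⟩
    refine ⟨S ∪ isoF G, (Finset.card_union_le _ _).trans hc, fun v => ?_⟩
    by_cases hv : Iso G v
    · exact ⟨v, by simp [isoF, hv], by simp⟩
    · obtain ⟨s, hs, h⟩ := hd v hv
      exact ⟨s, by simp [hs], (near_iff _ _ _).1 h⟩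

/-- every vertex which is not isolated has a representative -/
theorem exists_rep (M : List (List Bool)) (r : ℕ) (v : Fin M.length)
    (hv : ¬ Iso (graphOf M) v) : ∃ u : Fin M.length, repB M r u = true ∧
      ∀ w, near (graphOf M) r u w ↔ near (graphOf M) r v w := by
  classical
  have hne : (Finset.univ.filter (fun u : Fin M.length => ¬ Iso (graphOf M) u ∧
      ∀ w, near (graphOf M) r u w ↔ near (graphOf M) r v w)).Nonempty :=
    ⟨v, by simp [hv]⟩
  obtain ⟨u, hu1, hu2⟩ := Finset.exists_min_image _ (fun u : Fin M.length => (u : ℕ)) hne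
  obtain ⟨_, hu3, hu4⟩ := Finset.mem_filter.1 hu1
  refine ⟨u, ?_, hu4⟩
  simp only [repB, Bool.and_eq_true, Bool.not_eq_true', List.all_eq_true, List.mem_range]
  refine ⟨by rwa [← Bool.not_eq_true, isoB_iff], fun w hw => ?_⟩
  rw [← Bool.not_eq_true]
  simp only [earlier, Bool.and_eq_true, decide_eq_true_eq, Bool.not_eq_true', not_and]
  intro h1 h2 h3
  have h4 := hu2 ⟨w, hw⟩ (by
    rw [Finset.mem_filter]
    refine ⟨Finset.mem_univ _, ?_, fun z => ?_⟩
    · rwa [← isoB_iff M ⟨w, hw⟩, Bool.not_eq_true]
    · rw [← hu4 z]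
      exact (sameB_iff M r ⟨w, hw⟩ u).1 h3 z)
  simp only at h4
  omega

theorem rep_unique (M : List (List Bool)) (r : ℕ) {u v : Fin M.length}
    (hu : repB M r u = true) (hv : repB M r v = true)
    (h : ∀ w, near (graphOf M) r u w ↔ near (graphOf M) r v w) : u = v := by
  have key : ∀ {u v : Fin M.length}, repB M r u = true → repB M r v = true →
      (∀ w, near (graphOf M) r u w ↔ near (graphOf M) r v w) → ¬ u < v := by
    intro u v hu hv h hlt
    simp only [repB, Bool.and_eq_true, Bool.not_eq_true', List.all_eq_true, List.mem_range] at hu hv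
    have h1 := hv.2 u u.2
    have h2 : earlier M r v u = true := by
      simp only [earlier, Bool.and_eq_true, decide_eq_true_eq, Bool.not_eq_true']
      exact ⟨hlt, hu.1, (sameB_iff M r u v).2 h⟩
    rw [h2] at h1
    exact absurd h1 (by decide)
  rcases lt_trichotomy u v with h1 | h1 | h1
  · exact absurd h1 (key hu hv h)
  · exact h1
  · exact absurd h1 (key hv hu fun w => (h w).symm)

/-- The number of representatives is bounded. -/
theorem reps_length {M : List (List Bool)} {L : List ℕ} {r : ℕ} (hr : 3 ≤ r)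
    (h : IsSplitModulator (graphOf M) (vset M.length L)) :
    (reps M r).length ≤ 2 ^ (3 * (vset M.length L).ncard + 1 + 2 ^ (vset M.length L).ncard) := by
  obtain ⟨K, I, hV, hVd, hK, hI⟩ := h
  unfold reps
  rw [length_filter_range]
  refine card_reps hV hVd hK hI hr _ ?_ ?_
  · intro v hv
    have h1 := (Finset.mem_filter.1 hv).2
    simp only [repB, Bool.and_eq_true, Bool.not_eq_true'] at h1
    rw [← isoB_iff, h1.1]
    decide
  · intro u hu v hv h
    exact rep_unique M r (Finset.mem_filter.1 hu).2 (Finset.mem_filter.1 hv).2 h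

theorem zipIdx_filter {α : Type} (l : List α) (f : ℕ → Bool) (g : α → Bool)
    (h : ∀ i (hi : i < l.length), f i = g l[i]) :
    ((l.zipIdx.filter fun p => f p.2).map Prod.fst) = l.filter g := by
  have h1 : (l.zipIdx.filter fun p => f p.2) = l.zipIdx.filter fun p => g p.1 := by
    refine List.filter_congr fun p hp => ?_
    obtain ⟨a, i⟩ := p
    have h2 := List.mem_zipIdx hp
    simp only [Nat.zero_add, Nat.sub_zero] at h2
    obtain ⟨_, h3, h4⟩ := h2
    simp only
    rw [h i h3, h4]
  rw [h1]
  have h2 : (fun p : α × ℕ => g p.1) = g ∘ Prod.fst := rfl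
  rw [h2, ← List.filter_map]
  simp

theorem mem_pick {M : List (List Bool)} {r m s : ℕ} (h : s ∈ pick M r m) :
    s < M.length ∧ repB M r s = true := by
  simp only [pick, List.mem_map, List.mem_filter] at h
  obtain ⟨⟨a, i⟩, ⟨h1, _⟩, rfl⟩ := h
  have h2 := List.fst_mem_of_mem_zipIdx h1
  simpa [reps] using h2

theorem pick_nodup (M : List (List Bool)) (r m : ℕ) : (pick M r m).Nodup := by
  have h1 : (pick M r m).Sublist (reps M r) := by
    have h2 := (List.filter_sublist (l := (reps M r).zipIdx)
      (p := fun p => m.testBit p.2)).map Prod.fst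
    simpa [pick] using h2
  exact h1.nodup (List.Nodup.filter _ List.nodup_range)

/-- The test is sound and complete. -/
theorem check_iff (M : List (List Bool)) (r l N : ℕ) (hN : 2 ^ (reps M r).length ≤ N) :
    (∃ m < N, checkB M r l (pick M r m) = true) ↔
      ∃ S : Finset (Fin M.length), S.card ≤ l ∧ IsRDom (graphOf M) r S := by
  classical
  rw [dom_iff]
  constructor
  · rintro ⟨m, _, h⟩
    simp only [checkB, Bool.and_eq_true, decide_eq_true_eq, List.all_eq_true, List.mem_range,
      Bool.or_eq_true, List.any_eq_true, isoCount_eq] at h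
    obtain ⟨h1, h2⟩ := h
    refine ⟨Finset.univ.filter (fun v : Fin M.length => (v : ℕ) ∈ pick M r m), ?_, ?_, ?_⟩
    · intro s hs
      have h3 := (mem_pick (Finset.mem_filter.1 hs).2).2
      simp only [repB, Bool.and_eq_true, Bool.not_eq_true'] at h3
      rw [← isoB_iff, h3.1]
      decide
    · refine le_trans (Nat.add_le_add_right ?_ _) h1
      rw [← List.toFinset_card_of_nodup (pick_nodup M r m)]
      refine Finset.card_le_card_of_injOn (fun v => (v : ℕ)) ?_ (fun a _ b _ h => Fin.ext h)
      intro v hv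
      simpa using hv
    · intro v hv
      rcases h2 v v.2 with h3 | ⟨s, hs, h3⟩
      · rw [isoB_iff] at h3
        exact absurd h3 hv
      · exact ⟨⟨s, (mem_pick hs).1⟩, by simp [hs], (inBall_iff M r v ⟨s, (mem_pick hs).1⟩).1 h3⟩
  · rintro ⟨S, hS1, hS2, hS3⟩
    have hrep : ∀ s : Fin M.length, ∃ u : Fin M.length, ¬ Iso (graphOf M) s →
        (repB M r u = true ∧ ∀ w, near (graphOf M) r u w ↔ near (graphOf M) r s w) := by
      intro s
      by_cases hs : Iso (graphOf M) s
      · exact ⟨s, fun h => absurd hs h⟩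
      · obtain ⟨u, hu⟩ := exists_rep M r s hs
        exact ⟨u, fun _ => hu⟩
    choose ρ hρ using hrep
    let T : Finset (Fin M.length) := S.image ρ
    let f : ℕ → Bool := fun i => decide (∃ t ∈ T, (t : ℕ) = (reps M r).getD i 0)
    let m := Nat.ofBits (fun i : Fin (reps M r).length => f i)
    have hm : m < 2 ^ (reps M r).length := Nat.ofBits_lt_two_pow _
    have hpick : pick M r m = (reps M r).filter (fun a => decide (∃ t ∈ T, (t : ℕ) = a)) := by
      refine zipIdx_filter (reps M r) (fun i => m.testBit i) _ fun i hi => ?_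
      simp only [m]
      rw [Nat.testBit_ofBits_lt _ i hi]
      simp only [f]
      rw [List.getD_eq_getElem _ _ hi]
    have hmem : ∀ a, a ∈ pick M r m ↔ ∃ t ∈ T, (t : ℕ) = a := by
      intro a
      rw [hpick, List.mem_filter, decide_eq_true_eq]
      refine ⟨fun h => h.2, fun h => ⟨?_, h⟩⟩
      obtain ⟨t, ht, rfl⟩ := h
      simp only [T, Finset.mem_image] at ht
      obtain ⟨s, hs, rfl⟩ := ht
      simp only [reps, List.mem_filter, List.mem_range]
      exact ⟨(ρ s).2, (hρ s (hS1 s hs)).1⟩
    refine ⟨m, hm.trans_le hN, ?_⟩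
    simp only [checkB, Bool.and_eq_true, decide_eq_true_eq, List.all_eq_true, List.mem_range,
      Bool.or_eq_true, List.any_eq_true, isoCount_eq]
    constructor
    · refine le_trans (Nat.add_le_add_right ?_ _) hS2
      rw [← List.toFinset_card_of_nodup (pick_nodup M r m)]
      have h1 : (pick M r m).toFinset ⊆ Finset.image (fun t : Fin M.length => (t : ℕ)) T := by
        intro a ha
        rw [List.mem_toFinset, hmem] at ha
        rw [Finset.mem_image]
        exact ha
      exact (Finset.card_le_card h1).trans (Finset.card_image_le.trans Finset.card_image_le)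
    · intro v hv
      by_cases hiso : Iso (graphOf M) ⟨v, hv⟩
      · exact Or.inl ((isoB_iff M ⟨v, hv⟩).2 hiso)
      · obtain ⟨s, hs, h⟩ := hS3 ⟨v, hv⟩ hiso
        refine Or.inr ⟨ρ s, (hmem _).2 ⟨ρ s, Finset.mem_image_of_mem _ hs, rfl⟩, ?_⟩
        refine (inBall_iff M r ⟨v, hv⟩ (ρ s)).2 (near_symm ?_)
        exact ((hρ s (hS1 s hs)).2 _).2 (near_symm h)

/-! ### The decision procedure -/

/-- the number of tests -/
def bnd (k : ℕ) : ℕ := 2 ^ (2 ^ (3 * k + 1 + 2 ^ k))

/-- the size of the modulator -/
def modB (x : List (List Bool) × ℕ × List ℕ) : ℕ :=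
  ((List.range x.1.length).filter (fun v => decide (v ∈ x.2.2))).length

theorem modB_eq (x : List (List Bool) × ℕ × List ℕ) : modB x = modSize x := by
  classical
  unfold modB modSize
  rw [length_filter_range, Set.ncard_eq_toFinset_card']
  congr 1
  ext v
  simp only [Finset.mem_filter, Finset.mem_univ, true_and, decide_eq_true_eq, Set.mem_toFinset,
    vset, Set.mem_setOf_eq]

/-- the decision procedure -/
noncomputable def dec (r : ℕ) (x : List (List Bool) × ℕ × List ℕ) : Bool :=
  splitB x.1 x.2.2 && (List.range (List.replicate (bnd (modSize x)) ()).length).any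
    fun m => checkB x.1 r x.2.1 (pick x.1 r m)

theorem dec_iff {r : ℕ} (hr : 3 ≤ r) (x : List (List Bool) × ℕ × List ℕ) :
    dec r x = true ↔ RDomSplit r x := by
  unfold dec RDomSplit
  rw [Bool.and_eq_true, splitB_iff, List.any_eq_true]
  simp only [List.length_replicate, List.mem_range]
  refine and_congr_right fun h => ?_
  exact check_iff x.1 r x.2.1 _ (Nat.pow_le_pow_right (by norm_num) (reps_length hr h))

/-! ### Running time -/

section Poly

variable {α : Type} [TEnc α]

theorem poly_isoB {M : α → List (List Bool)} {v : α → ℕ} (hM : Poly M) (hv : Poly v) :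
    Poly (fun a => isoB (M a) (v a)) :=
  Poly.all (p := fun a w => !edg (M a) (v a) w) (Poly.range_length hM)
    (Poly.not (poly_edg (hM.comp (Poly.fst Poly.id)) (hv.comp (Poly.fst Poly.id))
      (Poly.snd Poly.id)))

theorem poly_sameB (r : ℕ) {M : α → List (List Bool)} {u v : α → ℕ} (hM : Poly M) (hu : Poly u)
    (hv : Poly v) : Poly (fun a => sameB (M a) r (u a) (v a)) :=
  Poly.all (p := fun a w => decide (inBall (M a) r (u a) w = inBall (M a) r (v a) w))
    (Poly.range_length hM)
    (Poly.decide_eq (poly_inBall r (hM.comp (Poly.fst Poly.id)) (hu.comp (Poly.fst Poly.id))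
      (Poly.snd Poly.id)) (poly_inBall r (hM.comp (Poly.fst Poly.id)) (hv.comp (Poly.fst Poly.id))
      (Poly.snd Poly.id)))

theorem poly_repB (r : ℕ) {M : α → List (List Bool)} {v : α → ℕ} (hM : Poly M) (hv : Poly v) :
    Poly (fun a => repB (M a) r (v a)) := by
  refine Poly.and (Poly.not (poly_isoB hM hv)) ?_
  refine Poly.all (p := fun a u => !earlier (M a) r (v a) u) (Poly.range_length hM) ?_
  have hM' := hM.comp (Poly.fst (Poly.id (α := α × ℕ)))
  have hv' := hv.comp (Poly.fst (Poly.id (α := α × ℕ)))
  have hu' : Poly (fun p : α × ℕ => p.2) := Poly.snd Poly.id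
  exact Poly.not (Poly.and (Poly.decide_lt hu' hv') (Poly.and (Poly.not (poly_isoB hM' hu'))
    (poly_sameB r hM' hu' hv')))

theorem poly_reps (r : ℕ) {M : α → List (List Bool)} (hM : Poly M) :
    Poly (fun a => reps (M a) r) :=
  Poly.filter (p := fun a v => repB (M a) r v) (Poly.range_length hM)
    (poly_repB r (hM.comp (Poly.fst Poly.id)) (Poly.snd Poly.id))

theorem poly_isoCount {M : α → List (List Bool)} (hM : Poly M) :
    Poly (fun a => isoCount (M a)) :=
  Poly.length (Poly.filter (p := fun a v => isoB (M a) v) (Poly.range_length hM)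
    (poly_isoB (hM.comp (Poly.fst Poly.id)) (Poly.snd Poly.id)))

theorem poly_pick (r : ℕ) {M : α → List (List Bool)} {m : α → ℕ} (hM : Poly M) (hm : Poly m) :
    Poly (fun a => pick (M a) r (m a)) := by
  refine Poly.map (F := fun _ (p : ℕ × ℕ) => p.1) ?_ (Poly.fst (Poly.snd Poly.id))
  refine Poly.filter (p := fun a (p : ℕ × ℕ) => (m a).testBit p.2)
    (Poly.zipIdx (poly_reps r hM)) ?_
  exact poly_testBit (hm.comp (Poly.fst Poly.id)) (Poly.snd (Poly.snd Poly.id))

theorem poly_checkB (r : ℕ) {M : α → List (List Bool)} {l : α → ℕ} {S : α → List ℕ}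
    (hM : Poly M) (hl : Poly l) (hS : Poly S) : Poly (fun a => checkB (M a) r (l a) (S a)) := by
  refine Poly.and (Poly.decide_le (Poly.add (Poly.length hS) (poly_isoCount hM)) hl) ?_
  refine Poly.all (p := fun a v => isoB (M a) v || (S a).any fun s => inBall (M a) r v s)
    (Poly.range_length hM) ?_
  have hM' := hM.comp (Poly.fst (Poly.id (α := α × ℕ)))
  have hS' := hS.comp (Poly.fst (Poly.id (α := α × ℕ)))
  refine Poly.or (poly_isoB hM' (Poly.snd Poly.id)) ?_
  refine Poly.any (p := fun (a : α × ℕ) s => inBall (M a.1) r a.2 s) hS' ?_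
  exact poly_inBall r (hM.comp (Poly.fst (Poly.fst Poly.id))) (Poly.snd (Poly.fst Poly.id))
    (Poly.snd Poly.id)

end Poly

theorem poly_modSize : Poly modSize := by
  refine Poly.congr (f := modB) ?_ modB_eq
  refine Poly.length (Poly.filter (l := fun x : List (List Bool) × ℕ × List ℕ =>
    List.range x.1.length) (p := fun x v => decide (v ∈ x.2.2))
    (Poly.range_length (Poly.fst Poly.id)) ?_)
  exact Poly.decide_mem (Poly.snd Poly.id) (Poly.snd (Poly.snd (Poly.fst Poly.id)))

theorem uf_bnd : H633.UF bnd :=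
  H633.UF.two_pow (H633.UF.two_pow (H633.UF.add (H633.UF.add (H633.UF.mul (H633.UF.const 3)
    H633.UF.id) (H633.UF.const 1)) (H633.UF.two_pow H633.UF.id)))

theorem fptTime_dec (r : ℕ) : FptTime modSize (dec r) := by
  have h1 : Poly (fun p : (List (List Bool) × ℕ × List ℕ) × List Unit =>
      splitB p.1.1 p.1.2.2 && (List.range p.2.length).any
        fun m => checkB p.1.1 r p.1.2.1 (pick p.1.1 r m)) := by
    refine Poly.and (poly_splitB (Poly.fst (Poly.fst Poly.id))
      (Poly.snd (Poly.snd (Poly.fst Poly.id)))) ?_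
    refine Poly.any (l := fun p : (List (List Bool) × ℕ × List ℕ) × List Unit =>
      List.range p.2.length) (p := fun p m => checkB p.1.1 r p.1.2.1 (pick p.1.1 r m))
      (Poly.range_length (Poly.snd Poly.id)) ?_
    have hM : Poly (fun p : ((List (List Bool) × ℕ × List ℕ) × List Unit) × ℕ => p.1.1.1) :=
      Poly.fst (Poly.fst (Poly.fst Poly.id))
    exact poly_checkB r hM (Poly.fst (Poly.snd (Poly.fst (Poly.fst Poly.id))))
      (poly_pick r hM (Poly.snd Poly.id))
  exact FptTime.poly_comp (f := fun x : List (List Bool) × ℕ × List ℕ =>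
      (x, List.replicate (bnd (modSize x)) ())) h1 ((FptTime.of_poly Poly.id).pair
    (uf_bnd.pad poly_modSize))

/-- For `r ≥ 3`, the problem is fixed-parameter tractable. -/
theorem isFpt {r : ℕ} (hr : 3 ≤ r) : IsFpt modSize (RDomSplit r) :=
  ⟨dec r, fptTime_dec r, dec_iff hr⟩

end Pool.Agent.NPC.X247.RDom
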