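import Pool.Agent.H633R2.CtrDefs

/-!
# `r`-Dominating Set parameterized by the size of a split modulator
-/

namespace Pool.Agent.X247.RDom

open Pool.Agent.NPC Pool.Agent.H633R2

/-- `X` is a split modulator of `G`: the vertices outside `X` are partitioned into a set `K`
inducing a clique and a set `I` inducing an edgeless graph. -/
def IsSplitModulator {V : Type} (G : SimpleGraph V) (X : Set V) : Prop :=
  ∃ K I : Set V, K ∪ I = Xᶜ ∧ Disjoint K I ∧ G.IsClique K ∧ G.IsIndepSet I

/-- `S` is an `r`-dominating set of `G`: every vertex is at distance at most `r` from some element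
of `S`. -/
def IsRDom {V : Type} (G : SimpleGraph V) (r : ℕ) (S : Set V) : Prop :=
  ∀ v, ∃ s ∈ S, G.edist v s ≤ r

/-- The set of the vertices whose numbers are in the list `L`. -/
def vset (n : ℕ) (L : List ℕ) : Set (Fin n) := {v | (v : ℕ) ∈ L}

/-- `r`-Dominating Set with a split modulator: instances `(M, ℓ, L)`, where `M` is the matrix of a
graph `G` and `L` a list of the vertices of a set `X`; the question is whether `X` is a split
modulator of `G` and `G` has an `r`-dominating set with at most `ℓ` vertices. -/
def RDomSplit (r : ℕ) (x : List (List Bool) × ℕ × List ℕ) : Prop :=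
  IsSplitModulator (graphOf x.1) (vset x.1.length x.2.2) ∧
    ∃ S : Finset (Fin x.1.length), S.card ≤ x.2.1 ∧ IsRDom (graphOf x.1) r S

/-- The parameter: the number of vertices of the modulator. -/
noncomputable def modSize (x : List (List Bool) × ℕ × List ℕ) : ℕ :=
  (vset x.1.length x.2.2).ncard

end Pool.Agent.X247.RDom
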