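import Pool.Agent.X247.RDom.Algo

/-!
# `2`-Dominating Set with a split modulator is W[2]-complete
-/

namespace Pool.Agent.NPC.X247.RDom

open Pool.Agent.H633R2 Pool.Agent.X247.RDom

theorem near_two {V : Type} {G : SimpleGraph V} {u v : V} :
    near G 2 u v ↔ u = v ∨ G.Adj u v ∨ ∃ w, G.Adj u w ∧ G.Adj w v := by
  simp only [near]
  constructor
  · rintro ((h | ⟨w, h1, rfl⟩) | ⟨w, h1, (rfl | ⟨z, h2, rfl⟩)⟩)
    · exact Or.inl h
    · exact Or.inr (Or.inl h1)
    · exact Or.inr (Or.inl h1)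
    · exact Or.inr (Or.inr ⟨w, h1, h2⟩)
  · rintro (h | h | ⟨w, h1, h2⟩)
    · exact Or.inl (Or.inl h)
    · exact Or.inl (Or.inr ⟨v, h, rfl⟩)
    · exact Or.inr ⟨w, h1, Or.inr ⟨v, h2, rfl⟩⟩

/-! ### Hardness -/

/-- legal vertices: `(0, j, 0)`, `(1, j, 0)`, `(2, j, v)`, `(3, j, v)`, `(4, 0, v)` -/
def okV (k : ℕ) (p : ℕ × ℕ × ℕ) : Bool :=
  bif decide (p.1 ≤ 1) then decide (p.2.1 < k) && decide (p.2.2 = 0) else
    bif decide (p.1 ≤ 3) then decide (p.2.1 < k) else decide (p.2.1 = 0)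

/-- the vertices -/
def vts (k n : ℕ) : List (ℕ × ℕ × ℕ) :=
  ((List.range 5) ×ˢ ((List.range (k + 1)) ×ˢ (List.range n))).filter (okV k)

theorem mem_vts {k n : ℕ} {p : ℕ × ℕ × ℕ} : p ∈ vts k n ↔
    (p.1 < 5 ∧ p.2.1 < k + 1 ∧ p.2.2 < n) ∧ okV k p = true := by
  obtain ⟨a, b, c⟩ := p
  simp only [vts, List.mem_filter, List.mem_product, List.mem_range]

theorem vts_nodup (k n : ℕ) : (vts k n).Nodup :=
  (List.nodup_range.product (List.nodup_range.product List.nodup_range)).filter _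

/-- adjacency (to be symmetrised) -/
def adjV (M : List (List Bool)) (p q : ℕ × ℕ × ℕ) : Bool :=
  (decide (p.1 = 0) && (decide (q.1 = 1) && decide (p.2.1 = q.2.1))) ||
  ((decide (p.1 = 0) && (decide (q.1 = 2) && decide (p.2.1 = q.2.1))) ||
  ((decide (p.1 = 2) && (decide (q.1 = 3) && decide (p.2 = q.2))) ||
  ((decide (p.1 = 3) && decide (q.1 = 3)) ||
  (decide (p.1 = 3) && (decide (q.1 = 4) && (decide (p.2.2 = q.2.2) || edg M p.2.2 q.2.2))))))

theorem adjV_iff (M : List (List Bool)) (p q : ℕ × ℕ × ℕ) : adjV M p q = true ↔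
    (p.1 = 0 ∧ q.1 = 1 ∧ p.2.1 = q.2.1) ∨ (p.1 = 0 ∧ q.1 = 2 ∧ p.2.1 = q.2.1) ∨
    (p.1 = 2 ∧ q.1 = 3 ∧ p.2 = q.2) ∨ (p.1 = 3 ∧ q.1 = 3) ∨
    (p.1 = 3 ∧ q.1 = 4 ∧ (p.2.2 = q.2.2 ∨ edg M p.2.2 q.2.2 = true)) := by
  simp only [adjV, Bool.or_eq_true, Bool.and_eq_true, decide_eq_true_eq]

/-- the number of colours -/
def kk (x : List (List Bool) × ℕ) : ℕ := min x.2 x.1.length

/-- the matrix of the reduction -/
def redM (x : List (List Bool) × ℕ) : List (List Bool) :=
  matOf (vts (kk x) x.1.length) (adjV x.1)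

/-- the reduction -/
def red (x : List (List Bool) × ℕ) : List (List Bool) × ℕ × List ℕ :=
  (redM x, kk x, idxOf (vts (kk x) x.1.length) (fun p => decide (p.1 = 0)))

section

variable (x : List (List Bool) × ℕ)

/-- the name of a vertex -/
def nm (i : Fin (redM x).length) : ℕ × ℕ × ℕ := vx (vts (kk x) x.1.length) (adjV x.1) i

theorem nm_mem (i : Fin (redM x).length) : nm x i ∈ vts (kk x) x.1.length := vx_mem _ _ _

theorem nm_inj {i j : Fin (redM x).length} (h : nm x i = nm x j) : i = j :=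
  vx_injective (vts_nodup _ _) _ h

theorem exists_nm {p : ℕ × ℕ × ℕ} (h : p ∈ vts (kk x) x.1.length) : ∃ i, nm x i = p :=
  exists_vx _ h

theorem adj_nm (i j : Fin (redM x).length) : (graphOf (redM x)).Adj i j ↔ nm x i ≠ nm x j ∧
    (adjV x.1 (nm x i) (nm x j) = true ∨ adjV x.1 (nm x j) (nm x i) = true) :=
  adj_matOf (vts_nodup _ _) _ i j

theorem mem_X (i : Fin (redM x).length) :
    i ∈ vset (redM x).length (red x).2.2 ↔ (nm x i).1 = 0 := by
  have h := mem_idxOf (l := vts (kk x) x.1.length) (p := fun p => decide (p.1 = 0)) (adjV x.1) i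
  simp only [decide_eq_true_eq] at h
  exact h

theorem red_split : IsSplitModulator (graphOf (redM x)) (vset (redM x).length (red x).2.2) := by
  refine ⟨{i | (nm x i).1 = 3}, {i | (nm x i).1 ≠ 3 ∧ (nm x i).1 ≠ 0}, ?_, ?_, ?_, ?_⟩
  · ext i
    simp only [Set.mem_union, Set.mem_setOf_eq, Set.mem_compl_iff, mem_X]
    omega
  · rw [Set.disjoint_left]
    intro i hi hi'
    exact hi'.1 hi
  · intro i hi j hj hij
    rw [adj_nm]
    refine ⟨fun h => hij (nm_inj x h), Or.inl ?_⟩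
    rw [adjV_iff]
    exact Or.inr (Or.inr (Or.inr (Or.inl ⟨hi, hj⟩)))
  · intro i hi j hj hij h
    rw [adj_nm, adjV_iff, adjV_iff] at h
    simp only [Set.mem_setOf_eq] at hi hj
    omega

theorem red_size : modSize (red x) ≤ x.2 := by
  have h : Set.InjOn (fun i => (nm x i).2.1) (vset (redM x).length (red x).2.2) := by
    intro i hi j hj hij
    rw [mem_X] at hi hj
    have h1 := (mem_vts.1 (nm_mem x i)).2
    have h2 := (mem_vts.1 (nm_mem x j)).2
    have hij' : (nm x i).2.1 = (nm x j).2.1 := hij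
    simp only [okV, hi, hj, Nat.zero_le, decide_true, cond_true, Bool.and_eq_true,
      decide_eq_true_eq] at h1 h2
    refine nm_inj x (Prod.ext (by rw [hi, hj]) (Prod.ext hij' (by rw [h1.2, h2.2])))
  have h2 : ((fun i => (nm x i).2.1) '' (vset (redM x).length (red x).2.2)).ncard ≤
      (Finset.range (kk x) : Set ℕ).ncard := by
    refine Set.ncard_le_ncard ?_ (Finset.finite_toSet _)
    rintro _ ⟨i, hi, rfl⟩
    rw [mem_X] at hi
    have h1 := (mem_vts.1 (nm_mem x i)).2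
    simp only [okV, hi, Nat.zero_le, decide_true, cond_true, Bool.and_eq_true,
      decide_eq_true_eq] at h1
    simpa using h1.1
  rw [Set.ncard_image_of_injOn h, Set.ncard_coe_finset, Finset.card_range] at h2
  exact h2.trans (Nat.min_le_left _ _)

/-- what dominates the pendant vertex number `j` -/
theorem near_pendant {i s : Fin (redM x).length} {j : ℕ} (hi : nm x i = (1, j, 0))
    (h : near (graphOf (redM x)) 2 i s) : (nm x s).2.1 = j ∧ (nm x s).1 ≤ 2 := by
  rw [near_two] at h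
  rcases h with rfl | h | ⟨w, h1, h2⟩
  · rw [hi]; simp
  · rw [adj_nm, adjV_iff, adjV_iff, hi] at h
    simp only at h
    omega
  · rw [adj_nm, adjV_iff, adjV_iff, hi] at h1
    rw [adj_nm, adjV_iff, adjV_iff] at h2
    simp only at h1
    omega

/-- what dominates the element `e` -/
theorem near_element {i s : Fin (redM x).length} {e : ℕ} (hi : nm x i = (4, 0, e))
    (hs : (nm x s).1 ≤ 2) (h : near (graphOf (redM x)) 2 i s) :
    (nm x s).2.2 = e ∨ edg x.1 (nm x s).2.2 e = true := by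
  rw [near_two] at h
  rcases h with rfl | h | ⟨w, h1, h2⟩
  · rw [hi] at hs; simp at hs
  · rw [adj_nm, adjV_iff, adjV_iff, hi] at h
    simp only at h
    omega
  · rw [adj_nm, adjV_iff, adjV_iff, hi] at h1
    rw [adj_nm, adjV_iff, adjV_iff] at h2
    simp only at h1
    have hw : (nm x w).1 = 3 := by omega
    have h3 : (nm x s).2 = (nm x w).2 := by
      rcases h2.2 with h2 | h2
      · omega
      · rcases h2 with h2 | h2 | h2 | h2 | h2
        · omega
        · omega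
        · exact h2.2.2
        · omega
        · omega
    rw [h3]
    rcases h1.2 with h1 | h1
    · omega
    · rcases h1 with h1 | h1 | h1 | h1 | h1
      · omega
      · omega
      · omega
      · omega
      · exact h1.2.2

theorem kk_le : kk x ≤ x.2 := Nat.min_le_left _ _

theorem red_backward (h : ∃ S : Finset (Fin (redM x).length), S.card ≤ kk x ∧
    IsRDom (graphOf (redM x)) 2 S) : HasDomSet x := by
  classical
  obtain ⟨S, hS, hd⟩ := h
  have hd' : ∀ v, ∃ s ∈ S, near (graphOf (redM x)) 2 v s := by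
    intro v
    obtain ⟨s, hs, h⟩ := hd v
    exact ⟨s, hs, (near_iff 2 v s).2 h⟩
  have hkn : kk x ≤ x.1.length := Nat.min_le_right _ _
  have hp : ∀ j : Fin (kk x), ∃ s ∈ S, (nm x s).2.1 = j ∧ (nm x s).1 ≤ 2 := by
    intro j
    have h1 : ((1, (j : ℕ), 0) : ℕ × ℕ × ℕ) ∈ vts (kk x) x.1.length := by
      have := j.2
      rw [mem_vts]
      refine ⟨⟨by norm_num, by simp only; omega, by simp only; omega⟩, ?_⟩
      simp [okV]
    obtain ⟨i, hi⟩ := exists_nm x h1
    obtain ⟨s, hs, h⟩ := hd' i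
    exact ⟨s, hs, near_pendant x hi h⟩
  choose σ hσ1 hσ2 using hp
  have hinj : Function.Injective σ := by
    intro a b hab
    have h1 := (hσ2 a).1
    have h2 := (hσ2 b).1
    rw [hab, h2] at h1
    exact Fin.ext h1.symm
  have himg : Finset.univ.image σ = S := by
    refine Finset.eq_of_subset_of_card_le ?_ ?_
    · intro s hs
      obtain ⟨j, _, rfl⟩ := Finset.mem_image.1 hs
      exact hσ1 j
    · rw [Finset.card_image_of_injective _ hinj, Finset.card_univ, Fintype.card_fin]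
      exact hS
  have hlow : ∀ s ∈ S, (nm x s).1 ≤ 2 := by
    intro s hs
    rw [← himg] at hs
    obtain ⟨j, _, rfl⟩ := Finset.mem_image.1 hs
    exact (hσ2 j).2
  refine ⟨S.image (fun s => ⟨(nm x s).2.2, (mem_vts.1 (nm_mem x s)).1.2.2⟩),
    Finset.card_image_le.trans (hS.trans (kk_le x)), fun w => ?_⟩
  have h1 : ((4, 0, (w : ℕ)) : ℕ × ℕ × ℕ) ∈ vts (kk x) x.1.length := by
    rw [mem_vts]
    refine ⟨⟨by norm_num, by simp only; omega, w.2⟩, ?_⟩
    simp [okV]
  obtain ⟨i, hi⟩ := exists_nm x h1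
  obtain ⟨s, hs, h⟩ := hd' i
  refine ⟨⟨(nm x s).2.2, (mem_vts.1 (nm_mem x s)).1.2.2⟩,
    Finset.mem_image.2 ⟨s, hs, rfl⟩, ?_⟩
  rcases near_element x hi (hlow s hs) h with h2 | h2
  · exact Or.inl (Fin.ext h2)
  · exact Or.inr ((edg_iff _ _ _).1 h2)

theorem red_forward (h : HasDomSet x) : ∃ S : Finset (Fin (redM x).length), S.card ≤ kk x ∧
    IsRDom (graphOf (redM x)) 2 S := by
  classical
  obtain ⟨D, hD, hd⟩ := h
  have hDn : D.card ≤ x.1.length := by
    have := Finset.card_le_univ D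
    rwa [Fintype.card_fin] at this
  have hDk : D.card ≤ kk x := le_min hD hDn
  by_cases hn : x.1.length = 0
  · refine ⟨∅, by simp, fun v => ?_⟩
    have := (mem_vts.1 (nm_mem x v)).1.2.2
    omega
  have hn' : 0 < x.1.length := by omega
  -- the enumeration of the dominating set
  let f : ℕ → Fin x.1.length := fun j => D.toList.getD j ⟨0, hn'⟩
  have hf : ∀ d ∈ D, ∃ j < kk x, f j = d := by
    intro d hdD
    obtain ⟨j, hj, h1⟩ := List.mem_iff_getElem.1 (Finset.mem_toList.2 hdD)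
    refine ⟨j, ?_, ?_⟩
    · rw [Finset.length_toList] at hj
      omega
    · simp only [f]
      rw [List.getD_eq_getElem _ _ hj, h1]
  have hv2 : ∀ j < kk x, ∀ v < x.1.length,
      ((2, j, v) : ℕ × ℕ × ℕ) ∈ vts (kk x) x.1.length := by
    intro j hj v hv
    rw [mem_vts]
    refine ⟨⟨by norm_num, by simp only; omega, hv⟩, ?_⟩
    simp [okV, hj]
  have hv3 : ∀ j < kk x, ∀ v < x.1.length,
      ((3, j, v) : ℕ × ℕ × ℕ) ∈ vts (kk x) x.1.length := by
    intro j hj v hv
    rw [mem_vts]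
    refine ⟨⟨by norm_num, by simp only; omega, hv⟩, ?_⟩
    simp [okV, hj]
  have hv0 : ∀ j < kk x, ((0, j, 0) : ℕ × ℕ × ℕ) ∈ vts (kk x) x.1.length := by
    intro j hj
    rw [mem_vts]
    refine ⟨⟨by norm_num, by simp only; omega, hn'⟩, ?_⟩
    simp [okV, hj]
  have hex : ∀ j : Fin (kk x), ∃ i, nm x i = (2, (j : ℕ), ((f j : ℕ))) := fun j =>
    exists_nm x (hv2 j j.2 _ (f j).2)
  choose σ hσ using hex
  refine ⟨Finset.univ.image σ, ?_, fun i => ?_⟩
  · refine Finset.card_image_le.trans ?_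
    simp
  have key : ∀ j : Fin (kk x), near (graphOf (redM x)) 2 i (σ j) →
      ∃ s ∈ (Finset.univ.image σ : Finset _), (graphOf (redM x)).edist i s ≤ (2 : ℕ) := by
    intro j h
    exact ⟨σ j, Finset.mem_image_of_mem _ (Finset.mem_univ _), (near_iff 2 _ _).1 h⟩
  have hi := mem_vts.1 (nm_mem x i)
  obtain ⟨⟨h1, h2, h3⟩, h4⟩ := hi
  -- case distinction on the type of the vertex
  have hcase : (nm x i).1 = 0 ∨ (nm x i).1 = 1 ∨ (nm x i).1 = 2 ∨ (nm x i).1 = 3 ∨
      (nm x i).1 = 4 := by omega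
  rcases hcase with h0 | h0 | h0 | h0 | h0
  · simp only [okV, h0, Nat.zero_le, decide_true, cond_true, Bool.and_eq_true,
      decide_eq_true_eq] at h4
    refine key ⟨_, h4.1⟩ ?_
    rw [near_two, adj_nm, hσ, adjV_iff]
    refine Or.inr (Or.inl ⟨?_, Or.inl (Or.inr (Or.inl ⟨h0, rfl, rfl⟩))⟩)
    intro h
    rw [h] at h0
    exact absurd h0 (by norm_num)
  · simp only [okV, h0, le_refl, decide_true, cond_true, Bool.and_eq_true,
      decide_eq_true_eq] at h4
    refine key ⟨_, h4.1⟩ ?_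
    obtain ⟨w, hw⟩ := exists_nm x (hv0 _ h4.1)
    rw [near_two]
    refine Or.inr (Or.inr ⟨w, ?_, ?_⟩)
    · rw [adj_nm, hw, adjV_iff, adjV_iff]
      refine ⟨?_, Or.inr (Or.inl ⟨rfl, h0, rfl⟩)⟩
      intro h
      rw [h] at h0
      exact absurd h0 (by norm_num)
    · rw [adj_nm, hw, hσ, adjV_iff]
      exact ⟨by simp, Or.inl (Or.inr (Or.inl ⟨rfl, rfl, rfl⟩))⟩
  · have hj : (nm x i).2.1 < kk x := by
      simp only [okV, h0] at h4
      simpa using h4
    refine key ⟨_, hj⟩ ?_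
    obtain ⟨w, hw⟩ := exists_nm x (hv0 _ hj)
    rw [near_two]
    refine Or.inr (Or.inr ⟨w, ?_, ?_⟩)
    · rw [adj_nm, hw, adjV_iff, adjV_iff]
      refine ⟨?_, Or.inr (Or.inr (Or.inl ⟨rfl, h0, rfl⟩))⟩
      intro h
      rw [h] at h0
      exact absurd h0 (by norm_num)
    · rw [adj_nm, hw, hσ, adjV_iff]
      exact ⟨by simp, Or.inl (Or.inr (Or.inl ⟨rfl, rfl, rfl⟩))⟩
  · have hj : (nm x i).2.1 < kk x := by
      simp only [okV, h0] at h4
      simpa using h4
    refine key ⟨_, hj⟩ ?_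
    obtain ⟨w, hw⟩ := exists_nm x (hv3 _ hj (f (nm x i).2.1) (f (nm x i).2.1).2)
    have hws : (graphOf (redM x)).Adj w (σ ⟨_, hj⟩) := by
      rw [adj_nm, hw, hσ, adjV_iff, adjV_iff]
      exact ⟨by simp, Or.inr (Or.inr (Or.inr (Or.inl ⟨rfl, rfl, rfl⟩)))⟩
    rw [near_two]
    by_cases hiw : i = w
    · right
      left
      have e : ∀ s, (graphOf (redM x)).Adj w s → (graphOf (redM x)).Adj i s := by
        intro s hs
        rw [hiw]
        exact hs
      exact e _ hws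
    · refine Or.inr (Or.inr ⟨w, ?_, hws⟩)
      rw [adj_nm, adjV_iff, adjV_iff]
      refine ⟨fun h => hiw (nm_inj x h), Or.inl (Or.inr (Or.inr (Or.inr (Or.inl ⟨h0, ?_⟩))))⟩
      rw [hw]
  · obtain ⟨d, hdD, hde⟩ := hd ⟨(nm x i).2.2, h3⟩
    obtain ⟨j, hj, hjd⟩ := hf d hdD
    refine key ⟨j, hj⟩ ?_
    obtain ⟨w, hw⟩ := exists_nm x (hv3 _ hj (f j) (f j).2)
    rw [near_two]
    refine Or.inr (Or.inr ⟨w, ?_, ?_⟩)
    · rw [adj_nm, hw, adjV_iff, adjV_iff]
      refine ⟨?_, Or.inr (Or.inr (Or.inr (Or.inr (Or.inr ⟨rfl, h0, ?_⟩))))⟩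
      · intro h
        rw [h] at h0
        exact absurd h0 (by norm_num)
      · simp only
        rw [hjd]
        rcases hde with rfl | hde
        · exact Or.inl rfl
        · exact Or.inr ((edg_iff _ _ _).2 hde)
    · rw [adj_nm, hw, hσ, adjV_iff, adjV_iff]
      exact ⟨by simp, Or.inr (Or.inr (Or.inr (Or.inl ⟨rfl, rfl, rfl⟩)))⟩

theorem red_iff : HasDomSet x ↔ RDomSplit 2 (red x) :=
  ⟨fun h => ⟨red_split x, red_forward x h⟩, fun h => red_backward x h.2⟩

end

theorem poly_adjV {α : Type} [TEnc α] {M : α → List (List Bool)} {p q : α → ℕ × ℕ × ℕ}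
    (hM : Poly M) (hp : Poly p) (hq : Poly q) : Poly (fun a => adjV (M a) (p a) (q a)) := by
  have h1 := fun c : ℕ => Poly.decide_eq (Poly.fst hp) (Poly.const c)
  have h2 := fun c : ℕ => Poly.decide_eq (Poly.fst hq) (Poly.const c)
  have h3 := Poly.decide_eq (Poly.fst (Poly.snd hp)) (Poly.fst (Poly.snd hq))
  exact Poly.or (Poly.and (h1 0) (Poly.and (h2 1) h3)) (Poly.or (Poly.and (h1 0)
    (Poly.and (h2 2) h3)) (Poly.or (Poly.and (h1 2) (Poly.and (h2 3)
      (Poly.decide_eq (Poly.snd hp) (Poly.snd hq)))) (Poly.or (Poly.and (h1 3) (h2 3))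
        (Poly.and (h1 3) (Poly.and (h2 4) (Poly.or (Poly.decide_eq (Poly.snd (Poly.snd hp))
          (Poly.snd (Poly.snd hq))) (poly_edg hM (Poly.snd (Poly.snd hp))
            (Poly.snd (Poly.snd hq)))))))))

theorem poly_kk : Poly kk := Poly.min (Poly.snd Poly.id) (Poly.length (Poly.fst Poly.id))

theorem uPoly_kk : UPoly kk :=
  UPoly.of_le poly_kk (UPoly.length (Poly.fst Poly.id)) fun _ => Nat.min_le_right _ _

theorem poly_okV {α : Type} [TEnc α] {k : α → ℕ} {p : α → ℕ × ℕ × ℕ} (hk : Poly k)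
    (hp : Poly p) : Poly (fun a => okV (k a) (p a)) := by
  have hj := Poly.decide_lt (Poly.fst (Poly.snd hp)) hk
  exact Poly.cond (Poly.decide_le (Poly.fst hp) (Poly.const _))
    (Poly.and hj (Poly.decide_eq (Poly.snd (Poly.snd hp)) (Poly.const _)))
    (Poly.cond (Poly.decide_le (Poly.fst hp) (Poly.const _)) hj
      (Poly.decide_eq (Poly.fst (Poly.snd hp)) (Poly.const _)))

theorem poly_vts : Poly (fun x : List (List Bool) × ℕ => vts (kk x) x.1.length) := by
  refine Poly.filter (p := fun x p => okV (kk x) p) ?_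
    (poly_okV (poly_kk.comp (Poly.fst Poly.id)) (Poly.snd Poly.id))
  have h1 : Poly (fun x : List (List Bool) × ℕ =>
      (List.range (kk x + 1)) ×ˢ (List.range x.1.length)) := by
    refine Poly.flatMap (F := fun x a => (List.range x.1.length).map (Prod.mk a))
      (UPoly.range (UPoly.add uPoly_kk (UPoly.const 1))) ?_
    refine Poly.map (F := fun (x : (List (List Bool) × ℕ) × ℕ) b => (x.2, b))
      (Poly.range_length (Poly.fst (Poly.fst Poly.id))) ?_
    exact Poly.pair (Poly.snd (Poly.fst Poly.id)) (Poly.snd Poly.id)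
  refine Poly.flatMap (F := fun x a =>
    ((List.range (kk x + 1)) ×ˢ (List.range x.1.length)).map (Prod.mk a)) (Poly.const _) ?_
  refine Poly.map (F := fun (x : (List (List Bool) × ℕ) × ℕ) (b : ℕ × ℕ) => (x.2, b))
    (h1.comp (Poly.fst Poly.id)) ?_
  exact Poly.pair (Poly.snd (Poly.fst Poly.id)) (Poly.snd Poly.id)

theorem poly_red : Poly red := by
  have h1 : Poly (fun q : ((List (List Bool) × ℕ) × (ℕ × ℕ × ℕ)) × (ℕ × ℕ × ℕ) =>
      adjV q.1.1.1 q.1.2 q.2) :=
    poly_adjV (M := fun q : ((List (List Bool) × ℕ) × (ℕ × ℕ × ℕ)) × (ℕ × ℕ × ℕ) => q.1.1.1)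
      (p := fun q => q.1.2) (q := fun q => q.2)
      (Poly.fst (Poly.fst (Poly.fst Poly.id))) (Poly.snd (Poly.fst Poly.id)) (Poly.snd Poly.id)
  have h2 : Poly (fun q : (List (List Bool) × ℕ) × (ℕ × ℕ × ℕ) => decide (q.2.1 = 0)) :=
    Poly.decide_eq (Poly.fst (Poly.snd Poly.id)) (Poly.const _)
  have h3 : Poly (fun x : List (List Bool) × ℕ => redM x) :=
    poly_matOf (l := fun x : List (List Bool) × ℕ => vts (kk x) x.1.length)
      (adj := fun x => adjV x.1) poly_vts h1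
  have h4 : Poly (fun x : List (List Bool) × ℕ =>
      idxOf (vts (kk x) x.1.length) (fun p => decide (p.1 = 0))) :=
    poly_idxOf (l := fun x : List (List Bool) × ℕ => vts (kk x) x.1.length)
      (p := fun _ p => decide (p.1 = 0)) poly_vts h2
  exact Poly.pair h3 (Poly.pair poly_kk h4)

/-- `2`-Dominating Set with a split modulator is W[2]-hard. -/
theorem w2Hard : W2Hard modSize (RDomSplit 2) := by
  intro α _ κ P hP
  refine FptReduces.trans hP ⟨red, fun k => k, FptTime.of_poly poly_red, Computable.id,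
    fun x => ⟨red_iff x, red_size x⟩⟩

end Pool.Agent.NPC.X247.RDom
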