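import Pool.Agent.X247.Gr
import Pool.Agent.X247.RDom.Defs

/-!
# Balls in graphs with a split modulator
-/

namespace Pool.Agent.NPC.X247.RDom

open Pool.Agent.H633R2 Pool.Agent.X247.RDom

theorem near_trans {V : Type} {G : SimpleGraph V} {a b : ℕ} {u v w : V} (h1 : near G a u v)
    (h2 : near G b v w) : near G (a + b) u w := by
  rw [near_iff] at *
  refine (G.edist_triangle (u := u) (v := v) (w := w)).trans ?_
  push_cast
  exact add_le_add h1 h2

/-- a vertex without neighbours -/
def Iso {V : Type} (G : SimpleGraph V) (v : V) : Prop := ∀ w, ¬ G.Adj v w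

theorem near_iso {V : Type} {G : SimpleGraph V} {r : ℕ} {u v : V} (hu : Iso G u)
    (h : near G r u v) : u = v := by
  induction r with
  | zero => exact h
  | succ r ih =>
    rcases h with h | ⟨w, h, _⟩
    · exact ih h
    · exact absurd h (hu w)

section

variable {V : Type} {G : SimpleGraph V} {X K I : Set V}

/-- the vertices of the clique and their neighbours in the independent set -/
def big (G : SimpleGraph V) (K I : Set V) : Set V := {v | v ∈ K ∨ (v ∈ I ∧ ∃ w ∈ K, G.Adj v w)}

/-- the vertices of the independent set without neighbours in the clique -/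
def low (G : SimpleGraph V) (K I : Set V) : Set V := {v | v ∈ I ∧ ∀ w ∈ K, ¬ G.Adj v w}

theorem near_clique (hK : G.IsClique K) {u v : V} (hu : u ∈ K) (hv : v ∈ K) : near G 1 u v := by
  by_cases h : u = v
  · exact Or.inl h
  · exact Or.inr ⟨v, hK hu hv h, rfl⟩

theorem near_adj {u v : V} (h : G.Adj u v) : near G 1 u v := Or.inr ⟨v, h, rfl⟩

theorem near_big_clique {u : V} (hu : u ∈ big G K I) : ∃ w ∈ K, near G 1 u w := by
  rcases hu with h | ⟨_, w, hw, h⟩
  · exact ⟨u, h, Or.inl rfl⟩
  · exact ⟨w, hw, near_adj h⟩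

theorem near_big (hK : G.IsClique K) {u v : V} (hu : u ∈ big G K I) (hv : v ∈ big G K I) :
    near G 3 u v := by
  obtain ⟨a, ha, h1⟩ := near_big_clique hu
  obtain ⟨b, hb, h2⟩ := near_big_clique hv
  exact near_trans (near_trans h1 (near_clique hK ha hb)) (near_symm h2)

theorem split_cases (hV : K ∪ I = Xᶜ) (v : V) : v ∈ X ∨ v ∈ big G K I ∨ v ∈ low G K I := by
  by_cases hX : v ∈ X
  · exact Or.inl hX
  · right
    have h : v ∈ K ∪ I := hV ▸ hX
    rcases h with h | h
    · exact Or.inl (Or.inl h)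
    · by_cases h2 : ∃ w ∈ K, G.Adj v w
      · exact Or.inl (Or.inr ⟨h, h2⟩)
      · exact Or.inr ⟨h, fun w hw h3 => h2 ⟨w, hw, h3⟩⟩

theorem low_adj (hV : K ∪ I = Xᶜ) (hI : G.IsIndepSet I) {v w : V} (hv : v ∈ low G K I)
    (h : G.Adj v w) : w ∈ X := by
  by_contra hX
  have h2 : w ∈ K ∪ I := hV ▸ hX
  rcases h2 with h2 | h2
  · exact hv.2 w h2 h
  · exact hI hv.1 h2 h.ne h

theorem low_twin (hV : K ∪ I = Xᶜ) (hI : G.IsIndepSet I) {v w : V} (hv : v ∈ low G K I)
    (hw : w ∈ low G K I) (h : ∀ x ∈ X, (G.Adj v x ↔ G.Adj w x)) (z : V) :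
    G.Adj v z ↔ G.Adj w z :=
  ⟨fun h1 => (h z (low_adj hV hI hv h1)).1 h1, fun h1 => (h z (low_adj hV hI hw h1)).2 h1⟩

theorem not_low_of_big (hVd : Disjoint K I) {v : V} (hv : v ∈ big G K I) : v ∉ low G K I := by
  rintro ⟨h1, h2⟩
  rcases hv with h | ⟨_, w, hw, h⟩
  · exact Set.disjoint_left.1 hVd h h1
  · exact h2 w hw h

/-- Balls of vertices with the same signature, one inclusion. -/
theorem ball_sub (hV : K ∪ I = Xᶜ) (hVd : Disjoint K I) (hK : G.IsClique K) (hI : G.IsIndepSet I)
    {r : ℕ} (hr : 3 ≤ r) {u v : V} (hu : u ∉ X) (hv : v ∉ X) (hiso : ¬ Iso G u)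
    (h1 : ∀ x ∈ X, (G.Adj u x ↔ G.Adj v x))
    (h2 : u ∈ big G K I ↔ v ∈ big G K I)
    (h3 : ∀ x ∈ X, (near G r u x → near G r v x))
    (h4 : ∀ w ∈ low G K I, near G r u w → ∃ w' ∈ low G K I, near G r v w' ∧
      ∀ x ∈ X, (G.Adj w x ↔ G.Adj w' x)) (w : V) (hw : near G r u w) : near G r v w := by
  by_cases hb : u ∈ big G K I
  · rcases split_cases (G := G) hV w with hX | hX | hX
    · exact h3 w hX hw
    · exact near_mono hr (near_big hK (h2.1 hb) hX)
    · obtain ⟨w', hw', h5, h6⟩ := h4 w hX hw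
      refine near_symm (near_twin (low_twin hV hI hX hw' h6) ?_ (near_symm h5))
      rintro rfl
      exact not_low_of_big hVd (h2.1 hb) hw'
  · have hu' : u ∈ low G K I := by
      rcases split_cases (G := G) hV u with h | h | h
      · exact absurd h hu
      · exact absurd h hb
      · exact h
    have hv' : v ∈ low G K I := by
      rcases split_cases (G := G) hV v with h | h | h
      · exact absurd h hv
      · exact absurd (h2.2 h) hb
      · exact h
    have ht := low_twin hV hI hu' hv' h1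
    by_cases hwu : w = u
    · subst hwu
      have : ∃ z, G.Adj w z := by
        by_contra hc
        exact hiso fun z hz => hc ⟨z, hz⟩
      obtain ⟨z, hz⟩ := this
      exact near_mono (by omega) (near_trans (near_adj ((ht z).1 hz)) (near_adj hz.symm))
    · exact near_twin (fun z => (ht z).symm) hwu hw

open Classical in
/-- The number of different balls of the vertices which are not isolated is bounded. -/
theorem card_reps [Fintype V] (hV : K ∪ I = Xᶜ) (hVd : Disjoint K I) (hK : G.IsClique K)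
    (hI : G.IsIndepSet I) {r : ℕ} (hr : 3 ≤ r) (R : Finset V) (hR : ∀ v ∈ R, ¬ Iso G v)
    (hR' : ∀ u ∈ R, ∀ v ∈ R, (∀ w, near G r u w ↔ near G r v w) → u = v) :
    R.card ≤ 2 ^ (3 * X.ncard + 1 + 2 ^ X.ncard) := by
  let sig : V → Option X × Set X × Bool × Set X × Set (Set X) := fun v =>
    (if h : v ∈ X then some ⟨v, h⟩ else none, {x | G.Adj v x}, decide (v ∈ big G K I),
      {x | near G r v x}, {N | ∃ w ∈ low G K I, near G r v w ∧ N = {x : X | G.Adj w x}})
  have h1 : R.card ≤ (Finset.univ : Finset (Option X × Set X × Bool × Set X × Set (Set X))).card := by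
    refine Finset.card_le_card_of_injOn sig (fun _ _ => Finset.mem_coe.2 (Finset.mem_univ _)) ?_
    intro u hu v hv huv
    simp only [sig, Prod.mk.injEq] at huv
    obtain ⟨e1, e2, e3, e4, e5⟩ := huv
    by_cases hX : u ∈ X
    · by_cases hX' : v ∈ X
      · rw [dif_pos hX, dif_pos hX'] at e1
        simpa using e1
      · rw [dif_pos hX, dif_neg hX'] at e1
        simp at e1
    · by_cases hX' : v ∈ X
      · rw [dif_neg hX, dif_pos hX'] at e1
        simp at e1
      · have f2 : ∀ x ∈ X, (G.Adj u x ↔ G.Adj v x) := fun x hx =>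
          iff_of_eq (congrArg (fun s : Set X => (⟨x, hx⟩ : X) ∈ s) e2)
        have f3 : u ∈ big G K I ↔ v ∈ big G K I := decide_eq_decide.1 e3
        have f4 : ∀ x ∈ X, (near G r u x ↔ near G r v x) := fun x hx =>
          iff_of_eq (congrArg (fun s : Set X => (⟨x, hx⟩ : X) ∈ s) e4)
        have key : ∀ a b : V, {N | ∃ w ∈ low G K I, near G r a w ∧ N = {x : X | G.Adj w x}} =
            {N | ∃ w ∈ low G K I, near G r b w ∧ N = {x : X | G.Adj w x}} →
            ∀ w ∈ low G K I, near G r a w → ∃ w' ∈ low G K I, near G r b w' ∧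
              ∀ x ∈ X, (G.Adj w x ↔ G.Adj w' x) := by
          intro a b hab w hw haw
          have h5 : {x : X | G.Adj w x} ∈
              {N | ∃ w ∈ low G K I, near G r b w ∧ N = {x : X | G.Adj w x}} := by
            rw [← hab]
            exact ⟨w, hw, haw, rfl⟩
          obtain ⟨w', hw', h6, h7⟩ := h5
          exact ⟨w', hw', h6, fun x hx =>
            iff_of_eq (congrArg (fun s : Set X => (⟨x, hx⟩ : X) ∈ s) h7)⟩
        refine hR' u hu v hv fun w => ⟨?_, ?_⟩
        · exact ball_sub hV hVd hK hI hr hX hX' (hR u hu) f2 f3 (fun x hx => (f4 x hx).1)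
            (key u v e5) w
        · exact ball_sub hV hVd hK hI hr hX' hX (hR v hv) (fun x hx => (f2 x hx).symm) f3.symm
            (fun x hx => (f4 x hx).2) (key v u e5.symm) w
  refine h1.trans ?_
  have hc : Fintype.card X = X.ncard := by rw [Set.ncard_eq_toFinset_card', Set.toFinset_card]
  rw [Finset.card_univ]
  simp only [Fintype.card_prod, Fintype.card_option, Fintype.card_set, Fintype.card_bool, hc]
  have h2 : X.ncard + 1 ≤ 2 ^ X.ncard := Nat.lt_two_pow_self
  calc (X.ncard + 1) * (2 ^ X.ncard * (2 * (2 ^ X.ncard * 2 ^ 2 ^ X.ncard)))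
      ≤ 2 ^ X.ncard * (2 ^ X.ncard * (2 * (2 ^ X.ncard * 2 ^ 2 ^ X.ncard))) :=
        Nat.mul_le_mul_right _ h2
    _ = 2 ^ (3 * X.ncard + 1 + 2 ^ X.ncard) := by
        rw [pow_add, pow_add, pow_mul', pow_one]
        ring

/-- The modulator, one vertex of the clique and the isolated vertices `2`-dominate the graph. -/
theorem dominated (hV : K ∪ I = Xᶜ) (hK : G.IsClique K) (hI : G.IsIndepSet I) {v : V}
    (hv : ¬ Iso G v) : (∃ x ∈ X, near G 2 v x) ∨ (∃ a ∈ K, ∀ b ∈ K, near G 2 v b) := by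
  by_cases hX : v ∈ X
  · exact Or.inl ⟨v, hX, near_mono (by omega) (show near G 0 v v from rfl)⟩
  have h : v ∈ K ∪ I := hV ▸ hX
  rcases h with h | h
  · exact Or.inr ⟨v, h, fun b hb => near_mono (by omega) (near_clique hK h hb)⟩
  · have : ∃ z, G.Adj v z := by
      by_contra hc
      exact hv fun z hz => hc ⟨z, hz⟩
    obtain ⟨z, hz⟩ := this
    by_cases hzX : z ∈ X
    · exact Or.inl ⟨z, hzX, near_mono (by omega) (near_adj hz)⟩
    · have h2 : z ∈ K ∪ I := hV ▸ hzX
      rcases h2 with h2 | h2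
      · exact Or.inr ⟨z, h2, fun b hb => near_trans (near_adj hz) (near_clique hK h2 hb)⟩
      · exact absurd hz (hI h h2 hz.ne)

end

end Pool.Agent.NPC.X247.RDom
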