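import Pool.Agent.X247.RDom.Hard

/-!
# `2`-Dominating Set with a split modulator is in W[2]
-/

namespace Pool.Agent.NPC.X247.RDom

open Pool.Agent.H633R2 Pool.Agent.X247.RDom

/-! ### Membership -/

/-- the vertices which are not isolated -/
def nonIso (M : List (List Bool)) : List ℕ := (List.range M.length).filter fun v => !isoB M v

/-- the square of the graph on the vertices which are not isolated -/
def sqM (M : List (List Bool)) : List (List Bool) := matOf (nonIso M) (inBall M 2)

/-- the reduction to Dominating Set -/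
def redDS (x : List (List Bool) × ℕ × List ℕ) : List (List Bool) × ℕ :=
  bif splitB x.1 x.2.2 && decide (isoCount x.1 ≤ x.2.1) then
    (bif decide (modB x + 1 + isoCount x.1 ≤ x.2.1) then ([], 0)
      else (sqM x.1, x.2.1 - isoCount x.1))
  else ([[false]], 0)

theorem hasDomSet_nil : HasDomSet ([], 0) := ⟨∅, by simp, fun w => w.elim0⟩

theorem not_hasDomSet_one : ¬ HasDomSet ([[false]], 0) := by
  rintro ⟨S, hS, h⟩
  obtain ⟨v, hv, _⟩ := h ⟨0, by simp⟩
  have := Finset.card_pos.2 ⟨v, hv⟩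
  simp only at hS
  omega

/-- Dominating sets of the square. -/
theorem sq_iff (M : List (List Bool)) (l : ℕ) : HasDomSet (sqM M, l) ↔
    ∃ S : Finset (Fin M.length), (∀ s ∈ S, ¬ Iso (graphOf M) s) ∧ S.card ≤ l ∧
        ∀ v, ¬ Iso (graphOf M) v → ∃ s ∈ S, near (graphOf M) 2 v s := by
  classical
  have hnd : (nonIso M).Nodup := List.nodup_range.filter _
  have hmem : ∀ v, v ∈ nonIso M ↔ ∃ h : v < M.length, ¬ Iso (graphOf M) ⟨v, h⟩ := by
    intro v
    simp only [nonIso, List.mem_filter, List.mem_range, Bool.not_eq_true']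
    constructor
    · rintro ⟨h1, h2⟩
      exact ⟨h1, by rw [← isoB_iff, h2]; decide⟩
    · rintro ⟨h1, h2⟩
      exact ⟨h1, by rwa [← isoB_iff, Bool.not_eq_true] at h2⟩
  have hadj : ∀ i j : Fin (sqM M).length, ∀ (hi : vx (nonIso M) (inBall M 2) i < M.length)
      (hj : vx (nonIso M) (inBall M 2) j < M.length), (i = j ∨ (graphOf (sqM M)).Adj i j) ↔
        near (graphOf M) 2 ⟨_, hi⟩ ⟨_, hj⟩ := by
    intro i j hi hj
    have h1 := adj_matOf hnd (inBall M 2) i j
    rw [show (graphOf (sqM M)).Adj i j ↔ _ from h1,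
      show inBall M 2 (vx (nonIso M) (inBall M 2) i) (vx (nonIso M) (inBall M 2) j) = true ↔ _
        from inBall_iff M 2 ⟨_, hi⟩ ⟨_, hj⟩,
      show inBall M 2 (vx (nonIso M) (inBall M 2) j) (vx (nonIso M) (inBall M 2) i) = true ↔ _
        from inBall_iff M 2 ⟨_, hj⟩ ⟨_, hi⟩]
    constructor
    · rintro (rfl | ⟨_, h | h⟩)
      · exact near_mono (by omega) (show near (graphOf M) 0 _ _ from rfl)
      · exact h
      · exact near_symm h
    · intro h
      by_cases hij : i = j
      · exact Or.inl hij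
      · exact Or.inr ⟨fun h2 => hij (vx_injective hnd _ h2), Or.inl h⟩
  have hlt : ∀ i : Fin (sqM M).length, ∃ h : vx (nonIso M) (inBall M 2) i < M.length,
      ¬ Iso (graphOf M) ⟨_, h⟩ := fun i => (hmem _).1 (vx_mem _ _ i)
  constructor
  · rintro ⟨D, hD, hd⟩
    refine ⟨D.image (fun i => ⟨_, (hlt i).1⟩), ?_, Finset.card_image_le.trans hD, ?_⟩
    · intro s hs
      obtain ⟨i, _, rfl⟩ := Finset.mem_image.1 hs
      exact (hlt i).2
    · intro v hv
      obtain ⟨i, hi⟩ := exists_vx (inBall M 2) ((hmem v).2 ⟨v.2, hv⟩)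
      obtain ⟨s, hs, h⟩ := hd i
      refine ⟨⟨_, (hlt s).1⟩, Finset.mem_image_of_mem _ hs, near_symm ?_⟩
      have h2 := (hadj s i (hlt s).1 (hlt i).1).1 h
      have e : (⟨vx (nonIso M) (inBall M 2) i, (hlt i).1⟩ : Fin M.length) = v := Fin.ext hi
      rw [e] at h2
      exact h2
  · rintro ⟨S, hS1, hS2, hS3⟩
    refine ⟨Finset.univ.filter (fun i => (⟨_, (hlt i).1⟩ : Fin M.length) ∈ S), ?_, ?_⟩
    · refine le_trans ?_ hS2
      refine Finset.card_le_card_of_injOn (fun i => (⟨_, (hlt i).1⟩ : Fin M.length)) ?_ ?_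
      · intro i hi
        exact (Finset.mem_filter.1 hi).2
      · intro i _ j _ hij
        exact vx_injective hnd _ (congrArg Fin.val hij)
    · intro w
      obtain ⟨s, hs, h⟩ := hS3 ⟨_, (hlt w).1⟩ (hlt w).2
      obtain ⟨i, hi⟩ := exists_vx (inBall M 2) ((hmem s).2 ⟨s.2, hS1 s hs⟩)
      have e : (⟨vx (nonIso M) (inBall M 2) i, (hlt i).1⟩ : Fin M.length) = s := Fin.ext hi
      refine ⟨i, ?_, ?_⟩
      · rw [Finset.mem_filter]
        exact ⟨Finset.mem_univ _, by rw [e]; exact hs⟩
      · refine (hadj i w (hlt i).1 (hlt w).1).2 ?_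
        rw [e]
        exact near_symm h

/-- If the budget is large, there is a dominating set. -/
theorem big_budget {n : ℕ} {G : SimpleGraph (Fin n)} {X : Set (Fin n)} (h : IsSplitModulator G X)
    {l : ℕ} (hl : X.ncard + 1 + (isoF G).card ≤ l) :
    ∃ S : Finset (Fin n), S.card ≤ l ∧ IsRDom G 2 S := by
  classical
  obtain ⟨K, I, hV, hVd, hK, hI⟩ := h
  rw [dom_iff]
  have hne : ∀ {v s : Fin n}, ¬ Iso G v → near G 2 v s → ¬ Iso G s := by
    intro v s hv h hs
    rw [← near_iso hs (near_symm h)] at hv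
    exact hv hs
  have hX : X.toFinset.card = X.ncard := (Set.ncard_eq_toFinset_card' X).symm
  by_cases hKe : K.Nonempty
  · obtain ⟨b, hb⟩ := hKe
    refine ⟨(insert b X.toFinset).filter (fun s => ¬ Iso G s), fun s hs =>
      (Finset.mem_filter.1 hs).2, ?_, fun v hv => ?_⟩
    · have h1 := Finset.card_filter_le (insert b X.toFinset) (fun s => ¬ Iso G s)
      have h2 := Finset.card_insert_le b X.toFinset
      omega
    · rcases dominated hV hK hI hv with ⟨s, hs, h⟩ | ⟨a, ha, h⟩
      · exact ⟨s, Finset.mem_filter.2 ⟨by simp [hs], hne hv h⟩, h⟩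
      · exact ⟨b, Finset.mem_filter.2 ⟨by simp, hne hv (h b hb)⟩, h b hb⟩
  · refine ⟨X.toFinset.filter (fun s => ¬ Iso G s), fun s hs =>
      (Finset.mem_filter.1 hs).2, ?_, fun v hv => ?_⟩
    · have h1 := Finset.card_filter_le X.toFinset (fun s => ¬ Iso G s)
      omega
    · rcases dominated hV hK hI hv with ⟨s, hs, h⟩ | ⟨a, ha, h⟩
      · exact ⟨s, Finset.mem_filter.2 ⟨by simp [hs], hne hv h⟩, h⟩
      · exact absurd ⟨a, ha⟩ hKe

theorem redDS_iff (x : List (List Bool) × ℕ × List ℕ) :
    RDomSplit 2 x ↔ HasDomSet (redDS x) := by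
  unfold redDS RDomSplit
  by_cases h1 : splitB x.1 x.2.2 = true
  · rw [h1, Bool.true_and]
    have h1' := (splitB_iff _ _).1 h1
    by_cases h2 : isoCount x.1 ≤ x.2.1
    · rw [decide_eq_true h2, cond_true]
      by_cases h3 : modB x + 1 + isoCount x.1 ≤ x.2.1
      · rw [decide_eq_true h3, cond_true]
        rw [modB_eq, isoCount_eq] at h3
        exact iff_of_true ⟨h1', big_budget h1' h3⟩ hasDomSet_nil
      · rw [decide_eq_false h3, cond_false, sq_iff, dom_iff, and_iff_right h1', ← isoCount_eq]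
        constructor
        · rintro ⟨S, hS1, hS2, hS3⟩
          exact ⟨S, hS1, by omega, hS3⟩
        · rintro ⟨S, hS1, hS2, hS3⟩
          exact ⟨S, hS1, by omega, hS3⟩
    · rw [decide_eq_false h2, cond_false]
      refine iff_of_false ?_ not_hasDomSet_one
      rintro ⟨_, h⟩
      rw [dom_iff, ← isoCount_eq] at h
      obtain ⟨S, _, h, _⟩ := h
      omega
  · rw [Bool.not_eq_true] at h1
    rw [h1, Bool.false_and, cond_false]
    refine iff_of_false ?_ not_hasDomSet_one
    rintro ⟨h, _⟩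
    rw [← splitB_iff, h1] at h
    exact absurd h (by decide)

theorem redDS_size (x : List (List Bool) × ℕ × List ℕ) : (redDS x).2 ≤ modSize x := by
  unfold redDS
  rw [← modB_eq]
  by_cases h1 : splitB x.1 x.2.2 && decide (isoCount x.1 ≤ x.2.1)
  · rw [h1, cond_true]
    by_cases h3 : modB x + 1 + isoCount x.1 ≤ x.2.1
    · rw [decide_eq_true h3, cond_true]
      exact Nat.zero_le _
    · rw [decide_eq_false h3, cond_false]
      simp only
      omega
  · rw [Bool.not_eq_true] at h1
    rw [h1, cond_false]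
    exact Nat.zero_le _

theorem poly_redDS : Poly redDS := by
  have hM : Poly (fun x : List (List Bool) × ℕ × List ℕ => x.1) := Poly.fst Poly.id
  have hl : Poly (fun x : List (List Bool) × ℕ × List ℕ => x.2.1) := Poly.fst (Poly.snd Poly.id)
  have hmod : Poly modB := poly_modSize.congr fun x => (modB_eq x).symm
  refine Poly.cond (Poly.and (poly_splitB hM (Poly.snd (Poly.snd Poly.id)))
    (Poly.decide_le (poly_isoCount hM) hl)) (Poly.cond (Poly.decide_le
      (Poly.add (Poly.add hmod (Poly.const _)) (poly_isoCount hM)) hl) (Poly.const _)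
        (Poly.pair ?_ (Poly.sub hl (poly_isoCount hM)))) (Poly.const _)
  refine poly_matOf (l := fun x : List (List Bool) × ℕ × List ℕ => nonIso x.1)
    (adj := fun x => inBall x.1 2) ?_ ?_
  · exact Poly.filter (p := fun (x : List (List Bool) × ℕ × List ℕ) v => !isoB x.1 v)
      (Poly.range_length hM) (Poly.not (poly_isoB (hM.comp (Poly.fst Poly.id))
        (Poly.snd Poly.id)))
  · exact poly_inBall 2 (hM.comp (Poly.fst (Poly.fst Poly.id))) (Poly.snd (Poly.fst Poly.id))
      (Poly.snd Poly.id)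

/-- `2`-Dominating Set with a split modulator is in W[2]. -/
theorem inW2 : InW2 modSize (RDomSplit 2) :=
  ⟨redDS, fun k => k, FptTime.of_poly poly_redDS, Computable.id,
    fun x => ⟨redDS_iff x, redDS_size x⟩⟩

end Pool.Agent.NPC.X247.RDom
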