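import Pool.Agent.X247.RDom.Math

/-!
# Recognising split modulators
-/

namespace Pool.Agent.NPC.X247.RDom

open Pool.Agent.H633R2 Pool.Agent.X247.RDom

theorem length_filter_range (n : ℕ) (p : ℕ → Bool) :
    ((List.range n).filter p).length = (Finset.univ.filter (fun w : Fin n => p w = true)).card := by
  have h1 : ((Finset.range n).filter (fun w => p w = true)).card =
      ((List.range n).filter p).length := by
    rw [Finset.card_def, Finset.filter_val, Finset.range_val]
    unfold Multiset.range
    rw [Multiset.filter_coe, Multiset.coe_card]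
    congr 1
    exact List.filter_congr fun x _ => by simp
  rw [← h1]
  symm
  refine Finset.card_bij (fun w _ => (w : ℕ)) ?_ ?_ ?_
  · intro w hw
    simp only [Finset.mem_filter, Finset.mem_univ, true_and] at hw
    simp [hw]
  · intro a _ b _ h
    exact Fin.ext h
  · intro b hb
    simp only [Finset.mem_filter, Finset.mem_range] at hb
    exact ⟨⟨b, hb.1⟩, by simp [hb.2], rfl⟩

section

variable {n : ℕ} (G : SimpleGraph (Fin n)) (X : Set (Fin n))

open Classical in
/-- number of neighbours outside the modulator -/
noncomputable def dg (v : Fin n) : ℕ := (Finset.univ.filter (fun w => w ∉ X ∧ G.Adj v w)).card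

/-- the vertices of degree at least `d` and perhaps one more vertex -/
def thr (d u : ℕ) : Set (Fin n) := {v | v ∉ X ∧ (d ≤ dg G X v ∨ (v : ℕ) = u)}

theorem split_iff : IsSplitModulator G X ↔ ∃ d ≤ n, ∃ u ≤ n, G.IsClique (thr G X d u) ∧
    G.IsIndepSet {v | v ∉ X ∧ v ∉ thr G X d u} := by
  classical
  constructor
  · rintro ⟨K, I, hV, hVd, hK, hI⟩
    have hne : (Finset.univ.filter (fun K : Finset (Fin n) => (∀ v ∈ K, v ∉ X) ∧
        G.IsClique (K : Set (Fin n)) ∧ G.IsIndepSet {v | v ∉ X ∧ v ∉ K})).Nonempty := by
      refine ⟨Finset.univ.filter (fun v => v ∈ K), ?_⟩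
      rw [Finset.mem_filter]
      have hKX : ∀ v ∈ K, v ∉ X := by
        intro v hv
        have : v ∈ Xᶜ := hV ▸ Or.inl hv
        exact this
      refine ⟨Finset.mem_univ _, fun v hv => hKX v (by simpa using hv), ?_, ?_⟩
      · simpa using hK
      · intro a ha b hb hab
        simp only [Finset.mem_filter, Finset.mem_univ, true_and, Set.mem_setOf_eq] at ha hb
        have ha' : a ∈ K ∪ I := hV ▸ ha.1
        have hb' : b ∈ K ∪ I := hV ▸ hb.1
        exact hI (ha'.resolve_left ha.2) (hb'.resolve_left hb.2) hab
    obtain ⟨K, hK1, hK2⟩ := Finset.exists_max_image _ Finset.card hne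
    rw [Finset.mem_filter] at hK1
    obtain ⟨_, hKX, hKc, hKi⟩ := hK1
    clear hne hV hVd hK hI
    -- (a)
    have ha : ∀ v, v ∉ X → v ∉ K → ∃ w ∈ K, ¬ G.Adj v w := by
      intro v hv hvK
      by_contra hc
      push Not at hc
      have h1 := hK2 (insert v K) (by
        rw [Finset.mem_filter]
        refine ⟨Finset.mem_univ _, ?_, ?_, ?_⟩
        · intro w hw
          rcases Finset.mem_insert.1 hw with rfl | hw
          · exact hv
          · exact hKX w hw
        · rw [Finset.coe_insert]
          refine hKc.insert fun b hb _ => hc b hb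
        · refine hKi.mono ?_
          rintro w ⟨h1, h2⟩
          exact ⟨h1, fun h3 => h2 (Finset.mem_insert_of_mem h3)⟩)
      rw [Finset.card_insert_of_notMem hvK] at h1
      omega
    have hsub : ∀ v, v ∉ X → v ∉ K → ∀ w, (w ∉ X ∧ G.Adj v w) → w ∈ K := by
      intro v hv hvK w hw
      by_contra hc
      exact hKi (show v ∈ {v | v ∉ X ∧ v ∉ K} from ⟨hv, hvK⟩)
        (show w ∈ {v | v ∉ X ∧ v ∉ K} from ⟨hw.1, hc⟩) hw.2.ne hw.2
    have hb : ∀ v, v ∉ X → v ∉ K → dg G X v < K.card := by
      intro v hv hvK
      obtain ⟨w, hw, hvw⟩ := ha v hv hvK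
      refine Finset.card_lt_card ?_
      rw [Finset.ssubset_iff_of_subset]
      · exact ⟨w, hw, fun h => hvw (Finset.mem_filter.1 h).2.2⟩
      · intro z hz
        exact hsub v hv hvK z (Finset.mem_filter.1 hz).2
    have hc : ∀ v ∈ K, K.card ≤ dg G X v + 1 := by
      intro v hv
      have h1 : (K.erase v).card ≤ dg G X v := by
        refine Finset.card_le_card fun z hz => ?_
        rw [Finset.mem_erase] at hz
        rw [Finset.mem_filter]
        exact ⟨Finset.mem_univ _, hKX z hz.2, hKc hv hz.2 (Ne.symm hz.1)⟩
      rw [Finset.card_erase_of_mem hv] at h1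
      omega
    have hd : ∀ v ∈ K, dg G X v < K.card → ∀ w, w ∉ X → w ∉ K → ¬ G.Adj v w := by
      intro v hv hlt w hwX hwK hvw
      have h1 : (insert w (K.erase v)).card ≤ dg G X v := by
        refine Finset.card_le_card fun z hz => ?_
        rw [Finset.mem_filter]
        rcases Finset.mem_insert.1 hz with rfl | hz
        · exact ⟨Finset.mem_univ _, hwX, hvw⟩
        · rw [Finset.mem_erase] at hz
          exact ⟨Finset.mem_univ _, hKX z hz.2, hKc hv hz.2 (Ne.symm hz.1)⟩
      rw [Finset.card_insert_of_notMem (fun h => hwK (Finset.mem_of_mem_erase h)),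
        Finset.card_erase_of_mem hv] at h1
      have := Finset.card_pos.2 ⟨v, hv⟩
      omega
    have hcard : K.card ≤ n := by
      have := Finset.card_le_univ K
      rwa [Fintype.card_fin] at this
    have key : ∀ d ≤ n, ∀ u ≤ n, (∀ v, v ∉ X → (v ∈ K ↔ d ≤ dg G X v ∨ (v : ℕ) = u)) →
        ∃ d ≤ n, ∃ u ≤ n, G.IsClique (thr G X d u) ∧
          G.IsIndepSet {v | v ∉ X ∧ v ∉ thr G X d u} := by
      intro d hd u hu h
      have e : thr G X d u = (K : Set (Fin n)) := by
        ext v
        simp only [thr, Set.mem_setOf_eq, Finset.mem_coe]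
        constructor
        · rintro ⟨h1, h2⟩
          exact (h v h1).2 h2
        · intro h1
          exact ⟨hKX v h1, (h v (hKX v h1)).1 h1⟩
      refine ⟨d, hd, u, hu, ?_, ?_⟩
      · rw [e]; exact hKc
      · rw [e]; exact hKi
    by_cases hA : ∃ u₁ ∈ K, ∃ u₂ ∈ K, u₁ ≠ u₂ ∧ dg G X u₁ < K.card ∧ dg G X u₂ < K.card
    · obtain ⟨u₁, h1, u₂, h2, hne, hl1, hl2⟩ := hA
      refine key (K.card - 1) (by omega) n le_rfl fun v hv => ⟨fun h => ?_, fun h => ?_⟩
      · have := hc v h
        exact Or.inl (by omega)
      · rcases h with h | h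
        · by_contra hvK
          have h3 : (insert u₁ (insert u₂
              (Finset.univ.filter (fun w => w ∉ X ∧ G.Adj v w)))).card ≤ K.card := by
            refine Finset.card_le_card fun z hz => ?_
            rcases Finset.mem_insert.1 hz with rfl | hz
            · exact h1
            rcases Finset.mem_insert.1 hz with rfl | hz
            · exact h2
            · exact hsub v hv hvK z (Finset.mem_filter.1 hz).2
          rw [Finset.card_insert_of_notMem, Finset.card_insert_of_notMem] at h3
          · have h4 : dg G X v + 1 + 1 ≤ K.card := h3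
            omega
          · intro h4
            exact hd u₂ h2 hl2 v hv hvK (Finset.mem_filter.1 h4).2.2.symm
          · intro h4
            rcases Finset.mem_insert.1 h4 with h4 | h4
            · exact hne h4
            · exact hd u₁ h1 hl1 v hv hvK (Finset.mem_filter.1 h4).2.2.symm
        · have := v.2
          omega
    · by_cases hB : ∃ u ∈ K, dg G X u < K.card
      · obtain ⟨u, hu, hlt⟩ := hB
        refine key K.card hcard u u.2.le fun v hv => ⟨fun h => ?_, fun h => ?_⟩
        · by_cases h1 : v = u
          · exact Or.inr (by rw [h1])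
          · left
            by_contra h2
            exact hA ⟨v, h, u, hu, h1, by omega, hlt⟩
        · rcases h with h | h
          · by_contra hvK
            have := hb v hv hvK
            omega
          · rw [Fin.ext h]; exact hu
      · refine key K.card hcard n le_rfl fun v hv => ⟨fun h => ?_, fun h => ?_⟩
        · left
          by_contra h2
          exact hB ⟨v, h, by omega⟩
        · rcases h with h | h
          · by_contra hvK
            have := hb v hv hvK
            omega
          · have := v.2
            omega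
  · rintro ⟨d, _, u, _, h1, h2⟩
    refine ⟨thr G X d u, {v | v ∉ X ∧ v ∉ thr G X d u}, ?_, ?_, h1, h2⟩
    · ext v
      simp only [Set.mem_union, Set.mem_setOf_eq, Set.mem_compl_iff]
      constructor
      · rintro (h | h)
        · exact h.1
        · exact h.1
      · intro h
        by_cases h3 : v ∈ thr G X d u
        · exact Or.inl h3
        · exact Or.inr ⟨h, h3⟩
    · rw [Set.disjoint_left]
      intro v hv hv'
      exact hv'.2 hv

end

/-! ### The Boolean test -/

/-- degree outside the modulator -/
def degB (M : List (List Bool)) (L : List ℕ) (v : ℕ) : ℕ :=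
  ((List.range M.length).filter (fun w => !(decide (w ∈ L)) && edg M v w)).length

theorem degB_eq (M : List (List Bool)) (L : List ℕ) (v : Fin M.length) :
    degB M L v = dg (graphOf M) (vset M.length L) v := by
  classical
  unfold degB dg
  rw [length_filter_range]
  congr 1
  ext w
  simp only [Finset.mem_filter, Finset.mem_univ, true_and, Bool.and_eq_true, Bool.not_eq_true',
    decide_eq_false_iff_not, edg_iff, vset, Set.mem_setOf_eq]

/-- membership in `thr` -/
def inThr (M : List (List Bool)) (L : List ℕ) (d u v : ℕ) : Bool :=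
  decide (d ≤ degB M L v) || decide (v = u)

theorem inThr_iff (M : List (List Bool)) (L : List ℕ) (d u : ℕ) (v : Fin M.length)
    (hv : v ∉ vset M.length L) :
    inThr M L d u v = true ↔ v ∈ thr (graphOf M) (vset M.length L) d u := by
  simp only [inThr, thr, degB_eq, Bool.or_eq_true, decide_eq_true_eq, Set.mem_setOf_eq, hv,
    not_false_eq_true, true_and]

/-- the test for two vertices -/
def pairOk (M : List (List Bool)) (L : List ℕ) (d u v w : ℕ) : Bool :=
  decide (v ∈ L) || (decide (w ∈ L) || (decide (v = w) ||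
    ((inThr M L d u v ^^ inThr M L d u w) || (decide (inThr M L d u v = edg M v w)))))

/-- the test whether the vertices in `L` form a split modulator -/
def splitB (M : List (List Bool)) (L : List ℕ) : Bool :=
  (List.range (M.length + 1)).any fun d => (List.range (M.length + 1)).any fun u =>
    (List.range M.length).all fun v => (List.range M.length).all fun w => pairOk M L d u v w

theorem pairOk_iff (M : List (List Bool)) (L : List ℕ) (d u : ℕ) :
    (∀ v w : Fin M.length, pairOk M L d u v w = true) ↔
      (graphOf M).IsClique (thr (graphOf M) (vset M.length L) d u) ∧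
      (graphOf M).IsIndepSet {v | v ∉ vset M.length L ∧
        v ∉ thr (graphOf M) (vset M.length L) d u} := by
  have h0 : ∀ v w : Fin M.length, pairOk M L d u v w = true ↔
      (v ∉ vset M.length L → w ∉ vset M.length L → v ≠ w →
        ((v ∈ thr (graphOf M) (vset M.length L) d u ↔
          w ∈ thr (graphOf M) (vset M.length L) d u) →
          (v ∈ thr (graphOf M) (vset M.length L) d u ↔ (graphOf M).Adj v w))) := by
    intro v w
    by_cases hv : v ∈ vset M.length L
    · have : (v : ℕ) ∈ L := hv
      simp [pairOk, this, hv]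
    by_cases hw : w ∈ vset M.length L
    · have : (w : ℕ) ∈ L := hw
      simp [pairOk, this, hw]
    have hv' : (v : ℕ) ∉ L := hv
    have hw' : (w : ℕ) ∉ L := hw
    by_cases hvw : v = w
    · simp [pairOk, hvw]
    have hvw' : (v : ℕ) ≠ w := fun h => hvw (Fin.ext h)
    rw [← inThr_iff M L d u v hv, ← inThr_iff M L d u w hw, ← edg_iff]
    simp only [pairOk, hv', hw', hvw', decide_false, Bool.false_or, hv, hw, hvw, ne_eq,
      not_false_eq_true, forall_const]
    cases inThr M L d u v <;> cases inThr M L d u w <;> cases edg M v w <;> simp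
  simp only [h0]
  constructor
  · intro h
    refine ⟨fun v hv w hw hvw => ?_, fun v hv w hw hvw => ?_⟩
    · exact (h v w hv.1 hw.1 hvw (iff_of_true hv hw)).1 hv
    · intro h2
      exact hv.2 ((h v w hv.1 hw.1 hvw (iff_of_false hv.2 hw.2)).2 h2)
  · rintro ⟨h1, h2⟩ v w hv hw hvw h3
    by_cases h4 : v ∈ thr (graphOf M) (vset M.length L) d u
    · exact iff_of_true h4 (h1 h4 (h3.1 h4) hvw)
    · exact iff_of_false h4 (h2 ⟨hv, h4⟩ ⟨hw, fun h5 => h4 (h3.2 h5)⟩ hvw)

theorem splitB_iff (M : List (List Bool)) (L : List ℕ) :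
    splitB M L = true ↔ IsSplitModulator (graphOf M) (vset M.length L) := by
  rw [split_iff]
  simp only [splitB, List.any_eq_true, List.mem_range, List.all_eq_true, ← pairOk_iff,
    Nat.lt_succ_iff]
  constructor
  · rintro ⟨d, hd, u, hu, h⟩
    exact ⟨d, hd, u, hu, fun v w => h v v.2 w w.2⟩
  · rintro ⟨d, hd, u, hu, h⟩
    exact ⟨d, hd, u, hu, fun v hv w hw => h ⟨v, hv⟩ ⟨w, hw⟩⟩

section Poly

variable {α : Type} [TEnc α]

theorem poly_degB {M : α → List (List Bool)} {L : α → List ℕ} {v : α → ℕ} (hM : Poly M)
    (hL : Poly L) (hv : Poly v) : Poly (fun a => degB (M a) (L a) (v a)) := by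
  refine Poly.length (Poly.filter (p := fun a w => !(decide (w ∈ L a)) && edg (M a) (v a) w)
    (Poly.range_length hM) ?_)
  exact Poly.and (Poly.not (Poly.decide_mem (Poly.snd Poly.id) (hL.comp (Poly.fst Poly.id))))
    (poly_edg (hM.comp (Poly.fst Poly.id)) (hv.comp (Poly.fst Poly.id)) (Poly.snd Poly.id))

theorem poly_inThr {M : α → List (List Bool)} {L : α → List ℕ} {d u v : α → ℕ} (hM : Poly M)
    (hL : Poly L) (hd : Poly d) (hu : Poly u) (hv : Poly v) :
    Poly (fun a => inThr (M a) (L a) (d a) (u a) (v a)) :=
  Poly.or (Poly.decide_le hd (poly_degB hM hL hv)) (Poly.decide_eq hv hu)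

theorem poly_pairOk {M : α → List (List Bool)} {L : α → List ℕ} {d u v w : α → ℕ} (hM : Poly M)
    (hL : Poly L) (hd : Poly d) (hu : Poly u) (hv : Poly v) (hw : Poly w) :
    Poly (fun a => pairOk (M a) (L a) (d a) (u a) (v a) (w a)) :=
  Poly.or (Poly.decide_mem hv hL) (Poly.or (Poly.decide_mem hw hL)
    (Poly.or (Poly.decide_eq hv hw) (Poly.or (Poly.xor (poly_inThr hM hL hd hu hv)
      (poly_inThr hM hL hd hu hw)) (Poly.decide_eq (poly_inThr hM hL hd hu hv)
        (poly_edg hM hv hw)))))

theorem poly_splitB {M : α → List (List Bool)} {L : α → List ℕ} (hM : Poly M) (hL : Poly L) :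
    Poly (fun a => splitB (M a) (L a)) := by
  have hr : ∀ {β : Type} [TEnc β] {f : β → α}, Poly f →
      Poly (fun b => List.range ((M (f b)).length + 1)) := fun hf =>
    UPoly.range (UPoly.add (UPoly.length (hM.comp hf)) (UPoly.const 1))
  refine Poly.any (p := fun a d => (List.range ((M a).length + 1)).any fun u =>
    (List.range (M a).length).all fun v => (List.range (M a).length).all fun w =>
      pairOk (M a) (L a) d u v w) (hr Poly.id) ?_
  refine Poly.any (p := fun (a : α × ℕ) u =>
    (List.range (M a.1).length).all fun v => (List.range (M a.1).length).all fun w =>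
      pairOk (M a.1) (L a.1) a.2 u v w) (hr (Poly.fst Poly.id)) ?_
  refine Poly.all (p := fun (a : (α × ℕ) × ℕ) v => (List.range (M a.1.1).length).all fun w =>
      pairOk (M a.1.1) (L a.1.1) a.1.2 a.2 v w)
    (Poly.range_length (hM.comp (Poly.fst (Poly.fst Poly.id)))) ?_
  refine Poly.all (p := fun (a : ((α × ℕ) × ℕ) × ℕ) w =>
      pairOk (M a.1.1.1) (L a.1.1.1) a.1.1.2 a.1.2 a.2 w)
    (Poly.range_length (hM.comp (Poly.fst (Poly.fst (Poly.fst Poly.id))))) ?_
  exact poly_pairOk (hM.comp (Poly.fst (Poly.fst (Poly.fst (Poly.fst Poly.id)))))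
    (hL.comp (Poly.fst (Poly.fst (Poly.fst (Poly.fst Poly.id)))))
    (Poly.snd (Poly.fst (Poly.fst (Poly.fst Poly.id)))) (Poly.snd (Poly.fst (Poly.fst Poly.id)))
    (Poly.snd (Poly.fst Poly.id)) (Poly.snd Poly.id)

end Poly

end Pool.Agent.NPC.X247.RDom
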